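import Pool.Agent.Helper363.Fin

/-! A non-symmetric convex body in four-space whose polar intersection body is homothetic to its
central symmetral. -/

set_option autoImplicit false

namespace Pool.Agent.Results.MP_7a8df2_gt.DimFour

open MeasureTheory

/-- Euclidean `n`-space. -/
abbrev E (n : ℕ) : Type := EuclideanSpace ℝ (Fin n)

/-- `K` is a convex body: compact, convex, with nonempty interior. -/
def IsConvexBody {n : ℕ} (K : Set (E n)) : Prop :=
  Convex ℝ K ∧ IsCompact K ∧ (interior K).Nonempty

/-- The hyperplane through the origin orthogonal to `u`. -/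
noncomputable abbrev hyp {n : ℕ} (u : E n) : Submodule ℝ (E n) := (ℝ ∙ u)ᗮ

/-- Lebesgue measure of the hyperplane `hyp u`. -/
noncomputable abbrev hypVol {n : ℕ} (u : E n) : Measure (hyp u) := volume

/-- The `(n-1)`-dimensional volume of the section of `K` by the hyperplane `hyp u`. -/
noncomputable def secVol {n : ℕ} (K : Set (E n)) (u : E n) : ℝ :=
  (hypVol u {y : hyp u | (y : E n) ∈ K}).toReal

/-- The intersection body: the star body whose radial function is `secVol K` on unit vectors. -/
def interBody {n : ℕ} (K : Set (E n)) : Set (E n) :=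
  {x | ∃ u : E n, ‖u‖ = 1 ∧ ∃ r : ℝ, 0 ≤ r ∧ r ≤ secVol K u ∧ x = r • u}

/-- The polar set. -/
def polarBody {n : ℕ} (A : Set (E n)) : Set (E n) :=
  {x | ∀ y ∈ A, (inner ℝ x y : ℝ) ≤ 1}

/-- The central symmetral `(K + (-K)) / 2`. -/
def symmetral {n : ℕ} (K : Set (E n)) : Set (E n) :=
  {x | ∃ a ∈ K, ∃ b ∈ K, x = (1 / 2 : ℝ) • (a + (-b))}

/-- `A` and `B` are homothetic: `A = x + r B` with `r > 0`. -/
def Homothetic {n : ℕ} (A B : Set (E n)) : Prop :=
  ∃ (x : E n) (r : ℝ), 0 < r ∧ A = (fun b => x + r • b) '' B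

/-- A centred ellipsoid: the image of the closed unit ball under an invertible linear map. -/
def IsCentredEllipsoid {n : ℕ} (K : Set (E n)) : Prop :=
  ∃ T : E n → E n, IsLinearMap ℝ T ∧ Function.Bijective T ∧ K = T '' Metric.closedBall 0 1

/-- `(IK)^*` is defined: all central sections of `K` have positive volume. -/
def PolarDefined {n : ℕ} (K : Set (E n)) : Prop :=
  ∀ u : E n, ‖u‖ = 1 → 0 < secVol K u

/-- `K` has a centre of symmetry `p` (not necessarily the origin). -/
def HasCentre {n : ℕ} (K : Set (E n)) : Prop :=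
  ∃ p : E n, ∀ x ∈ K, (2 : ℝ) • p - x ∈ K

/-- The origin is an interior point of `K`. -/
def OriginInside {n : ℕ} (K : Set (E n)) : Prop := (0 : E n) ∈ interior K

/-- There is a convex body `K` in four-space, with the origin in its interior, such that `(IK)^*`
is homothetic to `ΔK` and `K` is not a centred ellipsoid; `K` has no centre of symmetry at all. -/
theorem result : ∃ K : Set (E 4), IsConvexBody K ∧ OriginInside K ∧ PolarDefined K ∧
    Homothetic (polarBody (interBody K)) (symmetral K) ∧
    ¬ HasCentre K ∧ ¬ IsCentredEllipsoid K := by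
  obtain ⟨K, h1, h2, h3, h4, h5, h6⟩ := Pool.Agent.Helper363.final
  refine ⟨K, h1, h2, h3, h4, ?_, ?_⟩
  · rintro ⟨p, hp⟩
    obtain ⟨x, hx, hx2⟩ := h5 p
    exact hx2 (hp x hx)
  · rintro ⟨T, hT, hb, hK⟩
    exact h6 ⟨LinearEquiv.ofBijective (hT.mk' T) hb, hK⟩

end Pool.Agent.Results.MP_7a8df2_gt.DimFour
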